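import Mathlib
set_option autoImplicit false

/-!
# Context-free languages satisfying `P_k`, `k ≤ 4`, are regular

Outline.  Let `g` be a context-free grammar of `L`.

* The spine graph: vertices are nonterminals, an edge `(A, p, B, q)` for each rule `A → p B q`; its
  left labels are the words generated by `p`, its right labels the words generated by `q`.  A word
  `x z` is in `L` iff it can be read along a walk from the initial symbol, `x` on the left and `z` on
  the right, up to a last rule which is cut in two.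
* Core (`rel_of_sim`): if `L` satisfies `P_k` and the walks `l`, `l'` from `s` to `t` are equivalent
  modulo `k`-th powers of closed walks, then `l` may be used on the left and `l'` on the right.
  First (`claimA`) this is proved for two walks obtained from a common walk by (nested) insertions
  of `k`-th powers of closed walks, by induction on the number of insertions; the outermost inserted
  block is moved to the common walk and then pumped away.  Then the property `all pairs of walks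
  obtained from l, l' by insertions are related` is stable under insertions and deletions.
* Walks modulo `k`-th powers of closed walks form a groupoid whose vertex groups are finitely
  generated of exponent `k`; if such groups are finite there are finitely many classes
  (`fin_classes`), hence finitely many left quotients (`finite_quotients`).
* Finitely generated groups of exponent 1, 2, 3, 4 are finite (Burnside, Sanov): `bfin_small`.
-/

namespace Pool.Agent.Results.MP_5ca50a_lc.SmallExponents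

section

variable {α V E : Type}

/-- `n`-th power of a word. -/
def rep {β : Type} (n : ℕ) (u : List β) : List β := (List.replicate n u).flatten

@[simp] theorem rep_zero {β : Type} (u : List β) : rep 0 u = [] := rfl

theorem rep_succ {β : Type} (n : ℕ) (u : List β) : rep (n+1) u = u ++ rep n u := by
  simp [rep, List.replicate_succ]

theorem rep_add {β : Type} (m n : ℕ) (u : List β) : rep (m+n) u = rep m u ++ rep n u := by
  unfold rep
  rw [List.replicate_add, List.flatten_append]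

@[simp] theorem rep_nil {β : Type} (n : ℕ) : rep n ([] : List β) = [] := by
  simp [rep]

theorem rep_rep {β : Type} (m n : ℕ) (u : List β) : rep m (rep n u) = rep (n*m) u := by
  induction m with
  | zero => simp
  | succ m ih => rw [rep_succ, ih, Nat.mul_succ, Nat.add_comm, rep_add]

theorem rep_rep' {β : Type} (m n : ℕ) (u : List β) : rep m (rep n u) = rep (m*n) u := by
  rw [rep_rep, Nat.mul_comm]

/-- A graph whose edges carry a set of left labels and a set of right labels. -/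
structure TG (α V E : Type) where
  src : E → V
  tgt : E → V
  L : E → List α → Prop
  R : E → List α → Prop
  neL : ∀ e, ∃ u, L e u
  neR : ∀ e, ∃ v, R e v

variable (G : TG α V E)

namespace TG

/-- Walks. -/
def Walk : V → List E → V → Prop
  | a, [], b => a = b
  | a, e :: l, b => G.src e = a ∧ Walk (G.tgt e) l b

@[simp] theorem walk_nil (a b : V) : G.Walk a [] b ↔ a = b := Iff.rfl

@[simp] theorem walk_cons (a b : V) (e : E) (l : List E) :
    G.Walk a (e :: l) b ↔ G.src e = a ∧ G.Walk (G.tgt e) l b := Iff.rfl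

theorem walk_append {a b : V} {l1 l2 : List E} :
    G.Walk a (l1 ++ l2) b ↔ ∃ c, G.Walk a l1 c ∧ G.Walk c l2 b := by
  induction l1 generalizing a with
  | nil => simp
  | cons e l1 ih =>
    simp only [List.cons_append, walk_cons, ih]
    constructor
    · rintro ⟨h1, c, h2, h3⟩; exact ⟨c, ⟨h1, h2⟩, h3⟩
    · rintro ⟨c, ⟨h1, h2⟩, h3⟩; exact ⟨h1, c, h2, h3⟩

theorem walk_unique {a b c : V} {l : List E} (h1 : G.Walk a l b) (h2 : G.Walk a l c) : b = c := by
  induction l generalizing a with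
  | nil => rw [walk_nil] at h1 h2; rw [← h1, h2]
  | cons e l ih => exact ih h1.2 h2.2

theorem walk_rep {c : V} {l : List E} (h : G.Walk c l c) (n : ℕ) : G.Walk c (rep n l) c := by
  induction n with
  | zero => simp
  | succ n ih => rw [rep_succ, walk_append]; exact ⟨c, h, ih⟩

/-- Left labels of a list of edges. -/
def LP : List E → List α → Prop
  | [], x => x = []
  | e :: l, x => ∃ u x', x = u ++ x' ∧ G.L e u ∧ LP l x'

/-- Right labels of a list of edges (in reversed order). -/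
def RP : List E → List α → Prop
  | [], z => z = []
  | e :: l, z => ∃ z' v, z = z' ++ v ∧ G.R e v ∧ RP l z'

theorem LP_append {l1 l2 : List E} {x : List α} :
    G.LP (l1 ++ l2) x ↔ ∃ x1 x2, x = x1 ++ x2 ∧ G.LP l1 x1 ∧ G.LP l2 x2 := by
  induction l1 generalizing x with
  | nil => simp [LP]
  | cons e l1 ih =>
    simp only [List.cons_append, LP, ih]
    constructor
    · rintro ⟨u, x', rfl, hu, x1, x2, rfl, h1, h2⟩
      exact ⟨u ++ x1, x2, by simp, ⟨u, x1, rfl, hu, h1⟩, h2⟩
    · rintro ⟨x1, x2, rfl, ⟨u, x', rfl, hu, h1⟩, h2⟩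
      exact ⟨u, x' ++ x2, by simp, hu, x', x2, rfl, h1, h2⟩

theorem RP_append {l1 l2 : List E} {z : List α} :
    G.RP (l1 ++ l2) z ↔ ∃ z2 z1, z = z2 ++ z1 ∧ G.RP l1 z1 ∧ G.RP l2 z2 := by
  induction l1 generalizing z with
  | nil => simp [RP]
  | cons e l1 ih =>
    simp only [List.cons_append, RP, ih]
    constructor
    · rintro ⟨z', v, rfl, hv, z2, z1, rfl, h1, h2⟩
      exact ⟨z2, z1 ++ v, by simp, ⟨z1, v, rfl, hv, h1⟩, h2⟩
    · rintro ⟨z2, z1, rfl, ⟨z', v, rfl, hv, h1⟩, h2⟩
      exact ⟨z2 ++ z', v, by simp, hv, z2, z', rfl, h1, h2⟩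

theorem LP_ne (l : List E) : ∃ x, G.LP l x := by
  induction l with
  | nil => exact ⟨[], rfl⟩
  | cons e l ih =>
    obtain ⟨x, hx⟩ := ih
    obtain ⟨u, hu⟩ := G.neL e
    exact ⟨u ++ x, u, x, rfl, hu, hx⟩

theorem RP_ne (l : List E) : ∃ x, G.RP l x := by
  induction l with
  | nil => exact ⟨[], rfl⟩
  | cons e l ih =>
    obtain ⟨x, hx⟩ := ih
    obtain ⟨u, hu⟩ := G.neR e
    exact ⟨x ++ u, x, u, rfl, hu, hx⟩

theorem LP_rep {l : List E} {u : List α} (h : G.LP l u) (n : ℕ) : G.LP (rep n l) (rep n u) := by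
  induction n with
  | zero => rfl
  | succ n ih =>
    rw [rep_succ, rep_succ, LP_append]
    exact ⟨u, rep n u, rfl, h, ih⟩

theorem RP_rep {l : List E} {v : List α} (h : G.RP l v) (n : ℕ) : G.RP (rep n l) (rep n v) := by
  induction n with
  | zero => rfl
  | succ n ih =>
    rw [rep_succ, rep_add n 1 v, RP_append]
    refine ⟨rep n v, rep 1 v, rfl, ?_, ih⟩
    simpa [rep_succ] using h

/-- `Dom k n a l g b`: the walk `g` from `a` to `b` arises from `l` by `n` nested insertions of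
`k`-th powers of closed walks. -/
inductive Dom (k : ℕ) : ℕ → V → List E → List E → V → Prop
  | nil (a : V) : Dom k 0 a [] [] a
  | cons {n : ℕ} {b : V} {l g : List E} (e : E) : Dom k n (G.tgt e) l g b →
      Dom k n (G.src e) (e :: l) (e :: g) b
  | block {n m : ℕ} {a b : V} {c h l g : List E} : G.Walk a c a → Dom k n a (rep k c) h a →
      Dom k m a l g b → Dom k (n + m + 1) a l (h ++ g) b

variable {G}

theorem Dom.append {k n1 n2 : ℕ} {a b c : V} {l1 g1 l2 g2 : List E} (h1 : G.Dom k n1 a l1 g1 c)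
    (h2 : G.Dom k n2 c l2 g2 b) : G.Dom k (n1 + n2) a (l1 ++ l2) (g1 ++ g2) b := by
  induction h1 with
  | nil a => simpa using h2
  | cons e h ih => exact Dom.cons e (ih h2)
  | @block n m a c' p h l g hw hd hl _ ih2 =>
    have := Dom.block hw hd (ih2 h2)
    rw [List.append_assoc]
    convert this using 1
    omega

theorem Dom.refl {k : ℕ} {a b : V} {l : List E} (h : G.Walk a l b) : G.Dom k 0 a l l b := by
  induction l generalizing a with
  | nil => rw [walk_nil] at h; subst h; exact Dom.nil _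
  | cons e l ih =>
    obtain ⟨h1, h2⟩ := h
    subst h1
    exact Dom.cons e (ih h2)

theorem Dom.walk {k n : ℕ} {a b : V} {l g : List E} (h : G.Dom k n a l g b) : G.Walk a l b := by
  induction h with
  | nil a => simp
  | cons e h ih => exact ⟨rfl, ih⟩
  | block hw hd hl _ ih2 => exact ih2

theorem Dom.walk' {k n : ℕ} {a b : V} {l g : List E} (h : G.Dom k n a l g b) : G.Walk a g b := by
  induction h with
  | nil a => simp
  | cons e h ih => exact ⟨rfl, ih⟩
  | block hw hd hl ih1 ih2 => rw [walk_append]; exact ⟨_, ih1, ih2⟩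

theorem Dom.eq_of_zero {k n : ℕ} {a b : V} {l g : List E} (h : G.Dom k n a l g b) (hn : n = 0) :
    g = l := by
  induction h with
  | nil a => rfl
  | cons e h ih => rw [ih hn]
  | block hw hd hl ih1 ih2 => omega

theorem Dom.split_aux {k m : ℕ} {a b : V} {l h : List E} (hd : G.Dom k m a l h b) :
    ∀ l1 l2, l = l1 ++ l2 → ∃ c h1 h2 m1 m2, h = h1 ++ h2 ∧ m = m1 + m2 ∧
      G.Dom k m1 a l1 h1 c ∧ G.Dom k m2 c l2 h2 b := by
  induction hd with
  | nil a =>
    intro l1 l2 he
    obtain ⟨rfl, rfl⟩ := List.append_eq_nil_iff.mp he.symm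
    exact ⟨a, [], [], 0, 0, rfl, rfl, Dom.nil a, Dom.nil a⟩
  | @cons n b l g e hd ih =>
    intro l1 l2 he
    cases l1 with
    | nil =>
      simp only [List.nil_append] at he
      subst he
      exact ⟨G.src e, [], e :: g, 0, n, rfl, by simp, Dom.nil _, Dom.cons e hd⟩
    | cons e' l1 =>
      simp only [List.cons_append, List.cons.injEq] at he
      obtain ⟨rfl, rfl⟩ := he
      obtain ⟨c, h1, h2, m1, m2, rfl, rfl, d1, d2⟩ := ih l1 l2 rfl
      exact ⟨c, e :: h1, h2, m1, m2, rfl, rfl, Dom.cons e d1, d2⟩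
  | @block n m a b p h l g hw hd hl _ ih2 =>
    intro l1 l2 he
    obtain ⟨c, h1, h2, m1, m2, rfl, rfl, d1, d2⟩ := ih2 l1 l2 he
    exact ⟨c, h ++ h1, h2, n + m1 + 1, m2, by simp, by omega, Dom.block hw hd d1, d2⟩

theorem Dom.split {k m : ℕ} {a b c : V} {l1 l2 h : List E} (hd : G.Dom k m a (l1 ++ l2) h b)
    (hc : G.Walk a l1 c) : ∃ h1 h2 m1 m2, h = h1 ++ h2 ∧ m = m1 + m2 ∧
      G.Dom k m1 a l1 h1 c ∧ G.Dom k m2 c l2 h2 b := by
  obtain ⟨c', h1, h2, m1, m2, e1, e2, d1, d2⟩ := hd.split_aux l1 l2 rfl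
  have := G.walk_unique hc d1.walk
  subst this
  exact ⟨h1, h2, m1, m2, e1, e2, d1, d2⟩

theorem Dom.outer {k N : ℕ} {a b : V} {l g : List E} (hd : G.Dom k N a l g b) :
    ∀ n, N = n + 1 → ∃ l1 l2 c p g1 h0 g2 n1 n2 n3, l = l1 ++ l2 ∧ g = g1 ++ (h0 ++ g2) ∧
      G.Walk c p c ∧ G.Dom k n1 a l1 g1 c ∧ G.Dom k n2 c (rep k p) h0 c ∧
      G.Dom k n3 c l2 g2 b ∧ n = n1 + n2 + n3 := by
  induction hd with
  | nil a => intro n hn; omega
  | @cons n' b l g e hd ih =>
    intro n hn
    obtain ⟨l1, l2, c, p, g1, h0, g2, n1, n2, n3, rfl, rfl, hw, d1, d2, d3, e1⟩ := ih n hn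
    exact ⟨e :: l1, l2, c, p, e :: g1, h0, g2, n1, n2, n3, rfl, rfl, hw, Dom.cons e d1, d2, d3, e1⟩
  | @block n' m a b p h l g hw hd hl _ ih2 =>
    intro n hn
    exact ⟨[], l, a, p, [], h, g, 0, n', m, rfl, rfl, hw, Dom.nil a, hd, hl, by omega⟩

end TG

/-- Condition `P_k` for a predicate on words. -/
def PK (k : ℕ) (Lg : List α → Prop) : Prop :=
  ∀ x u y v z : List α, u ++ v ≠ [] →
    (∀ n, 1 ≤ n → Lg (x ++ rep n u ++ y ++ rep n v ++ z)) →
    ∀ i j : ℕ, Lg (x ++ rep (k*i) u ++ y ++ rep (k*j) v ++ z)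

theorem PK.all {k : ℕ} {Lg : List α → Prop} (h : PK k Lg) (x u y v z : List α)
    (hn : ∀ n, 1 ≤ n → Lg (x ++ rep n u ++ y ++ rep n v ++ z)) (i j : ℕ) :
    Lg (x ++ rep (k*i) u ++ y ++ rep (k*j) v ++ z) := by
  by_cases huv : u ++ v = []
  · obtain ⟨rfl, rfl⟩ := List.append_eq_nil_iff.mp huv
    simpa using hn 1 le_rfl
  · exact h x u y v z huv hn i j

theorem PK.one {k : ℕ} {Lg : List α → Prop} (h : PK k Lg) (x u y : List α)
    (hn : ∀ n, 1 ≤ n → Lg (x ++ rep n u ++ y)) : Lg (x ++ y) := by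
  have := h.all x u y [] [] (fun n h1 => by simpa using hn n h1) 0 0
  simpa using this

/-- The product relation. -/
def TG.Rel (M Lg : List α → Prop) (g h : List E) : Prop :=
  ∀ x m z, G.LP g x → M m → G.RP h z → Lg (x ++ m ++ z)

namespace TG

variable {G}

theorem claimA {k : ℕ} {M Lg : List α → Prop} (hP : PK k Lg) {s t : V}
    (hdiag : ∀ l, G.Walk s l t → G.Rel M Lg l l) :
    ∀ N n m : ℕ, n + m = N → ∀ l g h : List E, G.Dom k n s l g t → G.Dom k m s l h t →
      G.Rel M Lg g h := by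
  intro N
  induction N with
  | zero =>
    intro n m hnm l g h hg hh
    obtain ⟨rfl, rfl⟩ : n = 0 ∧ m = 0 := by omega
    rw [hg.eq_of_zero rfl, hh.eq_of_zero rfl]
    exact hdiag l hg.walk
  | succ N ih =>
    intro n m hnm l g h hg hh
    rcases n with _ | n
    · -- the outermost block is on the right
      obtain ⟨m, rfl⟩ : ∃ m', m = m' + 1 := ⟨m - 1, by omega⟩
      obtain ⟨l1, l2, c, p, h1, h0, h2, n1, n2, n3, rfl, rfl, hw, d1, d2, d3, e1⟩ := hh.outer m rfl
      obtain ⟨g1, g2, m1, m2, rfl, e2, f1, f2⟩ := hg.split d1.walk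
      have key : ∀ j, G.Rel M Lg (g1 ++ (rep k p ++ (rep j p ++ g2)))
          (h1 ++ (h0 ++ (rep j p ++ h2))) := by
        intro j
        have D1 : G.Dom k (m1 + (0 + (0 + m2))) s (l1 ++ (rep k p ++ (rep j p ++ l2)))
            (g1 ++ (rep k p ++ (rep j p ++ g2))) t :=
          f1.append ((Dom.refl (G.walk_rep hw k)).append ((Dom.refl (G.walk_rep hw j)).append f2))
        have D2 : G.Dom k (n1 + (n2 + (0 + n3))) s (l1 ++ (rep k p ++ (rep j p ++ l2)))
            (h1 ++ (h0 ++ (rep j p ++ h2))) t :=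
          d1.append (d2.append ((Dom.refl (G.walk_rep hw j)).append d3))
        exact ih _ _ (by omega) _ _ _ D1 D2
      intro x mm z hx hm hz
      obtain ⟨x1, x2, rfl, hx1, hx2⟩ := G.LP_append.mp hx
      obtain ⟨z2, z1, rfl, hz1, hz2⟩ := G.RP_append.mp hz
      obtain ⟨z3, z0, rfl, hz0, hz3⟩ := G.RP_append.mp hz2
      obtain ⟨u, hu⟩ := G.LP_ne p
      obtain ⟨v, hv⟩ := G.RP_ne p
      have K : ∀ n, 1 ≤ n → Lg ((x1 ++ rep k u) ++ rep n u ++ (x2 ++ mm ++ z3) ++ rep n v ++
          (z0 ++ z1)) := by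
        intro n _
        have A1 : G.LP (g1 ++ (rep k p ++ (rep n p ++ g2))) (x1 ++ (rep k u ++ (rep n u ++ x2))) :=
          G.LP_append.mpr ⟨_, _, rfl, hx1, G.LP_append.mpr ⟨_, _, rfl, G.LP_rep hu k,
            G.LP_append.mpr ⟨_, _, rfl, G.LP_rep hu n, hx2⟩⟩⟩
        have A2 : G.RP (h1 ++ (h0 ++ (rep n p ++ h2))) (((z3 ++ rep n v) ++ z0) ++ z1) :=
          G.RP_append.mpr ⟨_, _, rfl, hz1, G.RP_append.mpr ⟨_, _, rfl, hz0,
            G.RP_append.mpr ⟨_, _, rfl, G.RP_rep hv n, hz3⟩⟩⟩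
        have := key n _ mm _ A1 hm A2
        simpa [List.append_assoc] using this
      have K2 := fun i => hP.all _ _ _ _ _ K i 0
      have K3 : ∀ n, 1 ≤ n → Lg (x1 ++ rep n (rep k u) ++ (x2 ++ mm ++ z3 ++ (z0 ++ z1))) := by
        intro n hn
        have := K2 (n - 1)
        rw [rep_rep]
        have e : k * n = k + k * (n - 1) := by
          obtain ⟨n, rfl⟩ : ∃ n', n = n' + 1 := ⟨n - 1, by omega⟩
          simp [Nat.mul_succ, Nat.add_comm]
        rw [e, rep_add]
        simpa [List.append_assoc] using this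
      have := hP.one _ _ _ K3
      simpa [List.append_assoc] using this
    · obtain ⟨l1, l2, c, p, g1, h0, g2, n1, n2, n3, rfl, rfl, hw, d1, d2, d3, e1⟩ := hg.outer n rfl
      obtain ⟨h1, h2, m1, m2, rfl, e2, f1, f2⟩ := hh.split d1.walk
      have key : ∀ j, G.Rel M Lg (g1 ++ (h0 ++ (rep j p ++ g2)))
          (h1 ++ (rep k p ++ (rep j p ++ h2))) := by
        intro j
        have D2 : G.Dom k (m1 + (0 + (0 + m2))) s (l1 ++ (rep k p ++ (rep j p ++ l2)))
            (h1 ++ (rep k p ++ (rep j p ++ h2))) t :=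
          f1.append ((Dom.refl (G.walk_rep hw k)).append ((Dom.refl (G.walk_rep hw j)).append f2))
        have D1 : G.Dom k (n1 + (n2 + (0 + n3))) s (l1 ++ (rep k p ++ (rep j p ++ l2)))
            (g1 ++ (h0 ++ (rep j p ++ g2))) t :=
          d1.append (d2.append ((Dom.refl (G.walk_rep hw j)).append d3))
        exact ih _ _ (by omega) _ _ _ D1 D2
      intro x mm z hx hm hz
      obtain ⟨x1, x', rfl, hx1, hx'⟩ := G.LP_append.mp hx
      obtain ⟨x0, x2, rfl, hx0, hx2⟩ := G.LP_append.mp hx'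
      obtain ⟨z2, z1, rfl, hz1, hz2⟩ := G.RP_append.mp hz
      obtain ⟨u, hu⟩ := G.LP_ne p
      obtain ⟨v, hv⟩ := G.RP_ne p
      have K : ∀ n, 1 ≤ n → Lg ((x1 ++ x0) ++ rep n u ++ (x2 ++ mm ++ z2) ++ rep n v ++
          (rep k v ++ z1)) := by
        intro n _
        have A1 : G.LP (g1 ++ (h0 ++ (rep n p ++ g2))) (x1 ++ (x0 ++ (rep n u ++ x2))) :=
          G.LP_append.mpr ⟨_, _, rfl, hx1, G.LP_append.mpr ⟨_, _, rfl, hx0,
            G.LP_append.mpr ⟨_, _, rfl, G.LP_rep hu n, hx2⟩⟩⟩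
        have A2 : G.RP (h1 ++ (rep k p ++ (rep n p ++ h2))) (((z2 ++ rep n v) ++ rep k v) ++ z1) :=
          G.RP_append.mpr ⟨_, _, rfl, hz1, G.RP_append.mpr ⟨_, _, rfl, G.RP_rep hv k,
            G.RP_append.mpr ⟨_, _, rfl, G.RP_rep hv n, hz2⟩⟩⟩
        have := key n _ mm _ A1 hm A2
        simpa [List.append_assoc] using this
      have K2 := fun j => hP.all _ _ _ _ _ K 0 j
      have K3 : ∀ n, 1 ≤ n → Lg ((x1 ++ x0 ++ (x2 ++ mm ++ z2)) ++ rep n (rep k v) ++ z1) := by
        intro n hn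
        have := K2 (n - 1)
        rw [rep_rep]
        have e : k * n = k * (n - 1) + k := by
          obtain ⟨n, rfl⟩ : ∃ n', n = n' + 1 := ⟨n - 1, by omega⟩
          simp [Nat.mul_succ]
        rw [e, rep_add]
        simpa [List.append_assoc] using this
      have := hP.one _ _ _ K3
      simpa [List.append_assoc] using this

/-- All pairs obtained from `g` and `h` by insertions are related. -/
def Full (G : TG α V E) (k : ℕ) (M Lg : List α → Prop) (s t : V) (g h : List E) : Prop :=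
  ∀ n m g' h', G.Dom k n s g g' t → G.Dom k m s h h' t → G.Rel M Lg g' h'

theorem full_refl {k : ℕ} {M Lg : List α → Prop} (hP : PK k Lg) {s t : V}
    (hdiag : ∀ l, G.Walk s l t → G.Rel M Lg l l) (l : List E) :
    G.Full k M Lg s t l l := by
  intro n m g' h' hg hh
  exact claimA hP hdiag _ n m rfl l g' h' hg hh

/-- Insertion of one `k`-th power. -/
def Ins (G : TG α V E) (k : ℕ) (s t : V) (l l' : List E) : Prop :=
  ∃ a p b c, G.Walk s a c ∧ G.Walk c p c ∧ G.Walk c b t ∧ l = a ++ b ∧ l' = a ++ (rep k p ++ b)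

theorem dom_powers {k : ℕ} {c : V} {p : List E} (hw : G.Walk c p c) (N : ℕ) (hN : 1 ≤ N) :
    ∃ n, G.Dom k n c (rep k p) (rep (k*N) p) c := by
  obtain ⟨N, rfl⟩ : ∃ n', N = n' + 1 := ⟨N - 1, by omega⟩
  have D1 : G.Dom k 0 c (rep k (rep N p)) (rep k (rep N p)) c :=
    Dom.refl (G.walk_rep (G.walk_rep hw N) k)
  have D2 : G.Dom k 0 c (rep k p) (rep k p) c := Dom.refl (G.walk_rep hw k)
  have := Dom.block (G.walk_rep hw N) D1 D2
  rw [rep_rep', ← rep_add, ← Nat.mul_succ] at this
  exact ⟨_, this⟩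

theorem full_ins_right {k : ℕ} {M Lg : List α → Prop} {s t : V} {g l l' : List E}
    (hI : G.Ins k s t l l') (hF : G.Full k M Lg s t g l) : G.Full k M Lg s t g l' := by
  obtain ⟨a, p, b, c, ha, hp, hb, rfl, rfl⟩ := hI
  intro n m g' h' hg hh
  obtain ⟨h1, h2, m1, m2, rfl, rfl, d1, d2⟩ := hh.split ha
  obtain ⟨h3, h4, m3, m4, rfl, rfl, d3, d4⟩ := d2.split (G.walk_rep hp k)
  exact hF n _ g' _ hg (d1.append (Dom.block hp d3 d4))

theorem full_del_right {k : ℕ} {M Lg : List α → Prop} (hP : PK k Lg) {s t : V} {g l l' : List E}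
    (hI : G.Ins k s t l l') (hF : G.Full k M Lg s t g l') : G.Full k M Lg s t g l := by
  obtain ⟨a, p, b, c, ha, hp, hb, rfl, rfl⟩ := hI
  intro n m g' h' hg hh
  obtain ⟨h1, h2, m1, m2, rfl, rfl, d1, d2⟩ := hh.split ha
  intro x mm z hx hm hz
  obtain ⟨z2, z1, rfl, hz1, hz2⟩ := G.RP_append.mp hz
  obtain ⟨v, hv⟩ := G.RP_ne p
  have K3 : ∀ n, 1 ≤ n → Lg ((x ++ mm ++ z2) ++ rep n (rep k v) ++ z1) := by
    intro N hN
    obtain ⟨q, hq⟩ := dom_powers (k := k) hp N hN
    have := hF n _ g' _ hg (d1.append (hq.append d2)) x mm ((z2 ++ rep (k*N) v) ++ z1) hx hm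
      (G.RP_append.mpr ⟨_, _, rfl, hz1, G.RP_append.mpr ⟨_, _, rfl, G.RP_rep hv _, hz2⟩⟩)
    rw [rep_rep]
    simpa [List.append_assoc] using this
  have := hP.one _ _ _ K3
  simpa [List.append_assoc] using this

/-- The congruence generated by `k`-th powers of closed walks. -/
def Sim (G : TG α V E) (k : ℕ) (s t : V) : List E → List E → Prop :=
  Relation.EqvGen (G.Ins k s t)

theorem full_sim {k : ℕ} {M Lg : List α → Prop} (hP : PK k Lg) {s t : V} {l l' : List E}
    (hs : G.Sim k s t l l') (g : List E) : G.Full k M Lg s t g l ↔ G.Full k M Lg s t g l' := by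
  induction hs with
  | rel x y h => exact ⟨full_ins_right h, full_del_right hP h⟩
  | refl x => rfl
  | symm x y _ ih => exact ih.symm
  | trans x y z _ _ ih1 ih2 => exact ih1.trans ih2

theorem Ins.walk {k : ℕ} {s t : V} {l l' : List E} (h : G.Ins k s t l l') :
    G.Walk s l t ∧ G.Walk s l' t := by
  obtain ⟨a, p, b, c, ha, hp, hb, rfl, rfl⟩ := h
  exact ⟨G.walk_append.mpr ⟨c, ha, hb⟩,
    G.walk_append.mpr ⟨c, ha, G.walk_append.mpr ⟨c, G.walk_rep hp k, hb⟩⟩⟩

theorem Sim.walk {k : ℕ} {s t : V} {l l' : List E} (h : G.Sim k s t l l') :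
    G.Walk s l t ↔ G.Walk s l' t := by
  induction h with
  | rel x y h => exact ⟨fun _ => h.walk.2, fun _ => h.walk.1⟩
  | refl x => rfl
  | symm x y _ ih => exact ih.symm
  | trans x y z _ _ ih1 ih2 => exact ih1.trans ih2

/-- Main theorem of the core: equivalent walks may be used on the two sides. -/
theorem rel_of_sim {k : ℕ} {M Lg : List α → Prop} (hP : PK k Lg) {s t : V}
    (hdiag : ∀ l, G.Walk s l t → G.Rel M Lg l l) {l l' : List E} (hl : G.Walk s l t)
    (hs : G.Sim k s t l l') : G.Rel M Lg l l' := by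
  have h := (full_sim hP hs l).mp (full_refl (M := M) hP hdiag l)
  exact h 0 0 l l' (Dom.refl hl) (Dom.refl (hs.walk.mp hl))

end TG

end

section

/-- Every finitely generated group of exponent dividing `k` is finite. -/
def BFin (k : ℕ) : Prop :=
  ∀ (G : Type) [Group G], Group.FG G → (∀ g : G, g ^ k = 1) → Finite G

section three

variable {G : Type} [Group G]

theorem ex3_a (h3 : ∀ g : G, g ^ 3 = 1) (x h : G) : x * h * x = h⁻¹ * x⁻¹ * h⁻¹ := by
  have := h3 (x * h)
  have h1 : (x * h * x) * (h * x * h) = 1 := by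
    rw [← this]; simp only [pow_succ, pow_zero]; group
  have h2 : x * h * x = (h * x * h)⁻¹ := eq_inv_of_mul_eq_one_left h1
  rw [h2]; group

theorem ex3_inv (h3 : ∀ g : G, g ^ 3 = 1) (x : G) : x⁻¹ = x * x := by
  have := h3 x
  have h1 : x * (x * x) = 1 := by rw [← this]; simp only [pow_succ, pow_zero]; group
  exact inv_eq_of_mul_eq_one_right h1

theorem ex3_b (h3 : ∀ g : G, g ^ 3 = 1) (x h : G) : x⁻¹ * h * x⁻¹ = h⁻¹ * x * h⁻¹ := by
  have := ex3_a h3 x⁻¹ h
  simpa using this

/-- The shapes of the elements. -/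
inductive Sh (H : Subgroup G) (x : G) : G → Prop
  | a0 (a : G) : a ∈ H → Sh H x a
  | a1 (a b : G) : a ∈ H → b ∈ H → Sh H x (a * x * b)
  | a2 (a b : G) : a ∈ H → b ∈ H → Sh H x (a * x⁻¹ * b)
  | a3 (a b c : G) : a ∈ H → b ∈ H → c ∈ H → Sh H x (a * x * b * x⁻¹ * c)
  | a4 (a b c : G) : a ∈ H → b ∈ H → c ∈ H → Sh H x (a * x⁻¹ * b * x * c)

theorem Sh.fin (H : Subgroup G) (x : G) (hH : (H : Set G).Finite) :
    {g | Sh H x g}.Finite := by
  have f1 := (hH.prod hH).image (fun p : G × G => p.1 * x * p.2)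
  have f2 := (hH.prod hH).image (fun p : G × G => p.1 * x⁻¹ * p.2)
  have f3 := (hH.prod (hH.prod hH)).image (fun p : G × G × G => p.1 * x * p.2.1 * x⁻¹ * p.2.2)
  have f4 := (hH.prod (hH.prod hH)).image (fun p : G × G × G => p.1 * x⁻¹ * p.2.1 * x * p.2.2)
  refine ((((hH.union f1).union f2).union f3).union f4).subset ?_
  intro g hg
  cases hg with
  | a0 _ ha => exact Or.inl (Or.inl (Or.inl (Or.inl ha)))
  | a1 a b ha hb => exact Or.inl (Or.inl (Or.inl (Or.inr ⟨(a, b), ⟨ha, hb⟩, rfl⟩)))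
  | a2 a b ha hb => exact Or.inl (Or.inl (Or.inr ⟨(a, b), ⟨ha, hb⟩, rfl⟩))
  | a3 a b c ha hb hc => exact Or.inl (Or.inr ⟨(a, b, c), ⟨ha, hb, hc⟩, rfl⟩)
  | a4 a b c ha hb hc => exact Or.inr ⟨(a, b, c), ⟨ha, hb, hc⟩, rfl⟩

theorem Sh.mulH {H : Subgroup G} {x g s : G} (hg : Sh H x g) (hs : s ∈ H) : Sh H x (g * s) := by
  cases hg with
  | a0 _ ha => exact Sh.a0 _ (H.mul_mem ha hs)
  | a1 a b ha hb => rw [mul_assoc]; exact Sh.a1 _ _ ha (H.mul_mem hb hs)
  | a2 a b ha hb => rw [mul_assoc]; exact Sh.a2 _ _ ha (H.mul_mem hb hs)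
  | a3 a b c ha hb hc => rw [mul_assoc]; exact Sh.a3 _ _ _ ha hb (H.mul_mem hc hs)
  | a4 a b c ha hb hc => rw [mul_assoc]; exact Sh.a4 _ _ _ ha hb (H.mul_mem hc hs)

theorem Sh.mulx (h3 : ∀ g : G, g ^ 3 = 1) {H : Subgroup G} {x g : G} (hg : Sh H x g) :
    Sh H x (g * x) := by
  cases hg with
  | a0 _ ha => simpa using Sh.a1 _ 1 ha H.one_mem
  | a1 a b ha hb =>
    have e : a * x * b * x = (a * b⁻¹) * x⁻¹ * b⁻¹ := by
      calc a * x * b * x = a * (x * b * x) := by group
        _ = a * (b⁻¹ * x⁻¹ * b⁻¹) := by rw [ex3_a h3]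
        _ = _ := by group
    rw [e]
    exact Sh.a2 _ _ (H.mul_mem ha (H.inv_mem hb)) (H.inv_mem hb)
  | a2 a b ha hb => simpa using Sh.a4 _ _ 1 ha hb H.one_mem
  | a3 a b c ha hb hc =>
    have e : a * x * b * x⁻¹ * c * x = (a * b⁻¹ * (c * b)) * x * ((c * b) * c⁻¹) := by
      calc a * x * b * x⁻¹ * c * x = a * x * b * (x * x) * c * x := by rw [← ex3_inv h3]
        _ = a * (x * b * x) * (x * c * x) := by group
        _ = a * (b⁻¹ * x⁻¹ * b⁻¹) * (c⁻¹ * x⁻¹ * c⁻¹) := by rw [ex3_a h3 x b, ex3_a h3 x c]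
        _ = a * b⁻¹ * (x⁻¹ * (c * b)⁻¹ * x⁻¹) * c⁻¹ := by group
        _ = a * b⁻¹ * (((c * b)⁻¹)⁻¹ * x * ((c * b)⁻¹)⁻¹) * c⁻¹ := by rw [ex3_b h3]
        _ = _ := by group
    rw [e]
    have hcb := H.mul_mem hc hb
    exact Sh.a1 _ _ (H.mul_mem (H.mul_mem ha (H.inv_mem hb)) hcb) (H.mul_mem hcb (H.inv_mem hc))
  | a4 a b c ha hb hc =>
    have e : a * x⁻¹ * b * x * c * x = (a * (b * c⁻¹)⁻¹) * x * ((b * c⁻¹)⁻¹ * c⁻¹) := by
      calc a * x⁻¹ * b * x * c * x = a * x⁻¹ * b * (x * c * x) := by group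
        _ = a * x⁻¹ * b * (c⁻¹ * x⁻¹ * c⁻¹) := by rw [ex3_a h3]
        _ = a * (x⁻¹ * (b * c⁻¹) * x⁻¹) * c⁻¹ := by group
        _ = a * ((b * c⁻¹)⁻¹ * x * (b * c⁻¹)⁻¹) * c⁻¹ := by rw [ex3_b h3]
        _ = _ := by group
    rw [e]
    have hbc := H.inv_mem (H.mul_mem hb (H.inv_mem hc))
    exact Sh.a1 _ _ (H.mul_mem ha hbc) (H.mul_mem hbc (H.inv_mem hc))

theorem fin3 (h3 : ∀ g : G, g ^ 3 = 1) (S : Finset G) :
    ((Subgroup.closure (S : Set G) : Subgroup G) : Set G).Finite := by
  classical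
  induction S using Finset.induction_on with
  | empty => simp
  | insert x S _ ih =>
    set H := Subgroup.closure (S : Set G) with hH
    refine (Sh.fin H x ih).subset ?_
    intro g hg
    rw [SetLike.mem_coe] at hg
    show Sh H x g
    induction hg using Subgroup.closure_induction_right with
    | one => exact Sh.a0 _ H.one_mem
    | mul_right g hg y hy ihg =>
      rw [Finset.coe_insert, Set.mem_insert_iff] at hy
      rcases hy with rfl | hy
      · exact ihg.mulx h3
      · exact ihg.mulH (Subgroup.subset_closure hy)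
    | mul_inv_cancel g hg y hy ihg =>
      rw [Finset.coe_insert, Set.mem_insert_iff] at hy
      rcases hy with rfl | hy
      · rw [ex3_inv h3, ← mul_assoc]
        exact (ihg.mulx h3).mulx h3
      · exact ihg.mulH (H.inv_mem (Subgroup.subset_closure hy))

end three

section four

variable {G : Type} [Group G] (x : G)

/-- The product `x h_1 x h_2 ... x h_n`. -/
def Q : List G → G
  | [] => 1
  | h :: t => x * h * Q t

@[simp] theorem Q_nil : Q x [] = 1 := rfl
@[simp] theorem Q_cons (h : G) (t : List G) : Q x (h :: t) = x * h * Q x t := rfl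

/-- Reducible lists. -/
def Red (H : Subgroup G) (l : List G) : Prop :=
  ∃ h0 ∈ H, ∃ l' : List G, (∀ a ∈ l', a ∈ H) ∧ l'.length < l.length ∧ Q x l = h0 * Q x l'

theorem red_cons {H : Subgroup G} {t : List G} {a : G} (ha : a ∈ H) (h : Red x H t) :
    Red x H (a :: t) := by
  obtain ⟨h0, hh, l', hl, hlen, e⟩ := h
  refine ⟨1, H.one_mem, (a * h0) :: l', ?_, by simpa using hlen, ?_⟩
  · intro b hb
    rcases List.mem_cons.mp hb with rfl | hb
    · exact H.mul_mem ha hh
    · exact hl b hb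
  · simp only [Q_cons, e]; group

theorem red_one {H : Subgroup G} (hx : x * x ∈ H) {t : List G} {b : G} (hb : b ∈ H)
    (ht : ∀ a ∈ t, a ∈ H) : Red x H (1 :: b :: t) := by
  refine ⟨x * x * b, H.mul_mem hx hb, t, ht, by simp, ?_⟩
  simp only [Q_cons]; group

/-- The possible heads. -/
def Cs : List G → List G
  | [] => []
  | [_] => []
  | h :: b :: t => h :: (Cs (b :: t)).map (fun c => h * c⁻¹)

theorem cs_length : ∀ l : List G, (Cs l).length = l.length - 1
  | [] => rfl
  | [_] => rfl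
  | h :: b :: t => by
    have := cs_length (b :: t)
    simp only [Cs, List.length_cons, List.length_map] at this ⊢
    omega

theorem move (h4 : ∀ g : G, g ^ 4 = 1) (h d b q : G) :
    x * h * (x * d * (x * b * q)) =
      x * (h * d⁻¹) * (x * ((x * x)⁻¹ * d⁻¹ * (x * x)⁻¹) * (x * (d⁻¹ * b) * q)) := by
  have h1 : x * d * x = d⁻¹ * x⁻¹ * d⁻¹ * x⁻¹ * d⁻¹ := by
    have := h4 (x * d)
    have h2 : (x * d * x) * (d * x * d * x * d) = 1 := by
      rw [← this]; simp only [pow_succ, pow_zero]; group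
    rw [eq_inv_of_mul_eq_one_left h2]; group
  calc x * h * (x * d * (x * b * q)) = x * h * (x * d * x) * b * q := by group
    _ = x * h * (d⁻¹ * x⁻¹ * d⁻¹ * x⁻¹ * d⁻¹) * b * q := by rw [h1]
    _ = _ := by group

theorem cs_spec (h4 : ∀ g : G, g ^ 4 = 1) {H : Subgroup G} (hx : x * x ∈ H) :
    ∀ l : List G, (∀ a ∈ l, a ∈ H) → ∀ c ∈ Cs l, ∃ b t, c ∈ H ∧ b ∈ H ∧ (∀ a ∈ t, a ∈ H) ∧
      Q x l = Q x (c :: b :: t) ∧ l.length = (c :: b :: t).length
  | [], _, c, hc => by simp [Cs] at hc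
  | [_], _, c, hc => by simp [Cs] at hc
  | h :: b :: t, hl, c, hc => by
    have hh : h ∈ H := hl h (by simp)
    simp only [Cs, List.mem_cons, List.mem_map] at hc
    rcases hc with rfl | ⟨d, hd, rfl⟩
    · exact ⟨b, t, hh, hl b (by simp), fun a ha => hl a (by simp [ha]), rfl, rfl⟩
    · obtain ⟨b', t', hd', hb', ht', e1, e2⟩ :=
        cs_spec h4 hx (b :: t) (fun a ha => hl a (List.mem_cons_of_mem _ ha)) d hd
      refine ⟨(x * x)⁻¹ * d⁻¹ * (x * x)⁻¹, (d⁻¹ * b') :: t', H.mul_mem hh (H.inv_mem hd'),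
        H.mul_mem (H.mul_mem (H.inv_mem hx) (H.inv_mem hd')) (H.inv_mem hx), ?_, ?_, ?_⟩
      · intro a ha
        rcases List.mem_cons.mp ha with rfl | ha
        · exact H.mul_mem (H.inv_mem hd') hb'
        · exact ht' a ha
      · rw [Q_cons, e1]
        simp only [Q_cons]
        exact move x h4 h d b' (Q x t')
      · simp only [List.length_cons] at e2 ⊢
        omega

theorem cs_nodup (h4 : ∀ g : G, g ^ 4 = 1) {H : Subgroup G} (hx : x * x ∈ H) :
    ∀ l : List G, (∀ a ∈ l, a ∈ H) → ¬ Red x H l → (Cs l).Nodup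
  | [], _, _ => by simp [Cs]
  | [_], _, _ => by simp [Cs]
  | h :: b :: t, hl, hr => by
    have hl' : ∀ a ∈ b :: t, a ∈ H := fun a ha => hl a (List.mem_cons_of_mem _ ha)
    have hr' : ¬ Red x H (b :: t) := fun h' => hr (red_cons x (hl h (by simp)) h')
    have ih := cs_nodup h4 hx (b :: t) hl' hr'
    simp only [Cs, List.nodup_cons, List.mem_map]
    refine ⟨?_, ih.map ?_⟩
    · rintro ⟨c, hc, e⟩
      have hc1 : c = 1 := by
        have : c⁻¹ = 1 := by
          have := congrArg (fun y => h⁻¹ * y) e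
          simpa using this
        simpa using this
      subst hc1
      obtain ⟨b', t', _, hb', ht', e1, e2⟩ := cs_spec x h4 hx _ hl' 1 hc
      obtain ⟨h0, hh0, l', hl1, hlen, e3⟩ := red_one x hx hb' ht'
      exact hr' ⟨h0, hh0, l', hl1, by omega, by rw [e1, e3]⟩
    · intro a b hab
      simpa using hab

theorem ext4 (h4 : ∀ g : G, g ^ 4 = 1) (H : Subgroup G) (hH : (H : Set G).Finite)
    (hx : x * x ∈ H) :
    ((Subgroup.closure (insert x (H : Set G)) : Subgroup G) : Set G).Finite := by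
  classical
  set m := hH.toFinset.card with hm
  -- bounded representation
  have key : ∀ n (l : List G), l.length = n → (∀ a ∈ l, a ∈ H) → ∀ h0 ∈ H,
      ∃ h1 ∈ H, ∃ l' : List G, (∀ a ∈ l', a ∈ H) ∧ l'.length ≤ m + 1 ∧
        h0 * Q x l = h1 * Q x l' := by
    intro n
    induction n using Nat.strong_induction_on with
    | _ n ih =>
      intro l hn hl h0 hh0
      by_cases hle : l.length ≤ m + 1
      · exact ⟨h0, hh0, l, hl, hle, rfl⟩
      · have hr : Red x H l := by
          by_contra hr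
          have hnd := cs_nodup x h4 hx l hl hr
          have hsub : (Cs l).toFinset ⊆ hH.toFinset := by
            intro c hc
            rw [List.mem_toFinset] at hc
            obtain ⟨b, t, hcH, _⟩ := cs_spec x h4 hx l hl c hc
            simpa using hcH
          have hcard := Finset.card_le_card hsub
          rw [List.toFinset_card_of_nodup hnd, cs_length] at hcard
          omega
        obtain ⟨h2, hh2, l2, hl2, hlen, e⟩ := hr
        obtain ⟨h1, hh1, l', hl', hlen', e'⟩ := ih l2.length (by omega) l2 rfl hl2 (h0 * h2)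
          (H.mul_mem hh0 hh2)
        exact ⟨h1, hh1, l', hl', hlen', by rw [e, ← mul_assoc, e']⟩
  haveI : Finite H := hH
  have hfin : (Set.image (fun p : H × List H => (p.1 : G) * Q x (p.2.map Subtype.val))
      (Set.univ ×ˢ {l : List H | l.length ≤ m + 1})).Finite :=
    (Set.finite_univ.prod (List.finite_length_le H (m + 1))).image _
  refine hfin.subset ?_
  intro g hg
  rw [SetLike.mem_coe] at hg
  have hrep : ∃ h0 ∈ H, ∃ l : List G, (∀ a ∈ l, a ∈ H) ∧ g = h0 * Q x l := by
    induction hg using Subgroup.closure_induction_left with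
    | one => exact ⟨1, H.one_mem, [], by simp, by simp⟩
    | mul_left y hy g hg ihg =>
      obtain ⟨h0, hh0, l, hl, rfl⟩ := ihg
      rcases Set.mem_insert_iff.mp hy with rfl | hy
      · refine ⟨1, H.one_mem, h0 :: l, ?_, by simp [mul_assoc]⟩
        intro a ha
        rcases List.mem_cons.mp ha with rfl | ha
        · exact hh0
        · exact hl a ha
      · exact ⟨y * h0, H.mul_mem hy hh0, l, hl, by rw [mul_assoc]⟩
    | inv_mul_cancel y hy g hg ihg =>
      obtain ⟨h0, hh0, l, hl, rfl⟩ := ihg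
      rcases Set.mem_insert_iff.mp hy with rfl | hy
      · refine ⟨(y * y)⁻¹, H.inv_mem hx, h0 :: l, ?_, by rw [Q_cons]; group⟩
        intro a ha
        rcases List.mem_cons.mp ha with rfl | ha
        · exact hh0
        · exact hl a ha
      · exact ⟨y⁻¹ * h0, H.mul_mem (H.inv_mem hy) hh0, l, hl, by rw [mul_assoc]⟩
  obtain ⟨h0, hh0, l, hl, rfl⟩ := hrep
  obtain ⟨h1, hh1, l', hl', hlen, e⟩ := key _ l rfl hl h0 hh0
  refine ⟨(⟨h1, hh1⟩, l'.attach.map (fun a => ⟨a.1, hl' a.1 a.2⟩)), ⟨Set.mem_univ _, ?_⟩, ?_⟩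
  · simpa using hlen
  · simp only [List.map_map]
    rw [e]
    congr 2
    exact List.attach_map_subtype_val l'

theorem fin4 (h4 : ∀ g : G, g ^ 4 = 1) (S : Finset G) :
    ((Subgroup.closure (S : Set G) : Subgroup G) : Set G).Finite := by
  classical
  induction S using Finset.induction_on with
  | empty => simp
  | insert x S _ ih =>
    have f1 := ext4 (x * x) h4 (Subgroup.closure (S : Set G)) ih (by
      have : x * x * (x * x) = 1 := by rw [← h4 x]; simp only [pow_succ, pow_zero]; group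
      rw [this]; exact Subgroup.one_mem _)
    have f2 := ext4 x h4 _ f1 (Subgroup.subset_closure (Set.mem_insert _ _))
    refine f2.subset ?_
    rw [SetLike.coe_subset_coe, Subgroup.closure_le, Finset.coe_insert]
    intro y hy
    rcases Set.mem_insert_iff.mp hy with rfl | hy
    · exact Subgroup.subset_closure (Set.mem_insert _ _)
    · refine Subgroup.subset_closure (Set.mem_insert_of_mem _ ?_)
      exact Subgroup.subset_closure (Set.mem_insert_of_mem _ (Subgroup.subset_closure hy))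

end four

theorem bfin_of {k : ℕ} (h : ∀ (G : Type) [Group G], (∀ g : G, g ^ k = 1) → ∀ S : Finset G,
    ((Subgroup.closure (S : Set G) : Subgroup G) : Set G).Finite) : BFin k := by
  intro G _ hfg hk
  obtain ⟨S, hS⟩ := hfg.out
  have := h G hk S
  rw [hS] at this
  exact Set.finite_univ_iff.mp (by simpa using this)

theorem bfin3 : BFin 3 := bfin_of (fun _ _ h S => fin3 h S)
theorem bfin4 : BFin 4 := bfin_of (fun _ _ h S => fin4 h S)

theorem bfin_dvd {k m : ℕ} (hkm : k ∣ m) (h : BFin m) : BFin k := by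
  intro G _ hfg hk
  refine h G hfg ?_
  intro g
  obtain ⟨c, rfl⟩ := hkm
  rw [pow_mul, hk, one_pow]

theorem bfin_small {k : ℕ} (h1 : 1 ≤ k) (h4 : k ≤ 4) : BFin k := by
  interval_cases k
  · exact bfin_dvd (one_dvd 4) bfin4
  · exact bfin_dvd (by norm_num) bfin4
  · exact bfin3
  · exact bfin4

end

section

variable {α V E : Type}

theorem finite_of_monoid {k : ℕ} (hk : 1 ≤ k) (hB : BFin k) (M : Type) [Monoid M]
    (hfg : Monoid.FG M) (hpow : ∀ x : M, x ^ k = 1) : Finite M := by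
  let I : Group M :=
    { (inferInstance : Monoid M) with
      inv := fun x => x ^ (k-1)
      inv_mul_cancel := by
        intro x
        show x ^ (k-1) * x = 1
        rw [← pow_succ]
        have : k - 1 + 1 = k := by omega
        rw [this]; exact hpow x }
  have h1 : @Group.FG M I := Group.fg_iff_monoid_fg.mpr hfg
  exact @hB M I h1 hpow

namespace TG

variable {G : TG α V E}

theorem Sim.refl {k : ℕ} {a b : V} (l : List E) : G.Sim k a b l l := Relation.EqvGen.refl _

theorem Sim.symm {k : ℕ} {a b : V} {l l' : List E} (h : G.Sim k a b l l') : G.Sim k a b l' l :=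
  Relation.EqvGen.symm _ _ h

theorem Sim.trans {k : ℕ} {a b : V} {l l' l'' : List E} (h : G.Sim k a b l l')
    (h' : G.Sim k a b l' l'') : G.Sim k a b l l'' :=
  Relation.EqvGen.trans _ _ _ h h'

theorem Sim.left {k : ℕ} {a b c : V} {p m m' : List E} (hp : G.Walk a p c)
    (h : G.Sim k c b m m') : G.Sim k a b (p ++ m) (p ++ m') := by
  induction h with
  | rel x y h =>
    obtain ⟨u, w, z, d, hu, hw, hz, rfl, rfl⟩ := h
    exact Relation.EqvGen.rel _ _ ⟨p ++ u, w, z, d, G.walk_append.mpr ⟨c, hp, hu⟩, hw, hz,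
      by simp, by simp⟩
  | refl x => exact Sim.refl _
  | symm x y _ ih => exact ih.symm
  | trans x y z _ _ ih1 ih2 => exact ih1.trans ih2

theorem Sim.right {k : ℕ} {a b c : V} {p m m' : List E} (hp : G.Walk c p b)
    (h : G.Sim k a c m m') : G.Sim k a b (m ++ p) (m' ++ p) := by
  induction h with
  | rel x y h =>
    obtain ⟨u, w, z, d, hu, hw, hz, rfl, rfl⟩ := h
    exact Relation.EqvGen.rel _ _ ⟨u, w, z ++ p, d, hu, hw, G.walk_append.mpr ⟨c, hz, hp⟩,
      by simp, by simp⟩
  | refl x => exact Sim.refl _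
  | symm x y _ ih => exact ih.symm
  | trans x y z _ _ ih1 ih2 => exact ih1.trans ih2

theorem Sim.append {k : ℕ} {a b c : V} {l l' m m' : List E} (hl : G.Walk a l c)
    (hm : G.Walk c m b) (h1 : G.Sim k a c l l') (h2 : G.Sim k c b m m') :
    G.Sim k a b (l ++ m) (l' ++ m') := by
  have hl' : G.Walk a l' c := h1.walk.mp hl
  exact (Sim.right hm h1).trans (Sim.left hl' h2)

theorem sim_pow {k : ℕ} {c : V} {p : List E} (hp : G.Walk c p c) : G.Sim k c c (rep k p) [] :=
  (Relation.EqvGen.rel _ _ ⟨[], p, [], c, rfl, hp, rfl, rfl, by simp⟩ :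
    G.Sim k c c [] (rep k p)).symm

/-- The product of a word over closed walks. -/
def prodW (C : Set (List E)) (w : FreeMonoid C) : List E := (w.toList.map Subtype.val).flatten

theorem prodW_one (C : Set (List E)) : prodW C 1 = [] := rfl

theorem prodW_mul (C : Set (List E)) (x y : FreeMonoid C) :
    prodW C (x * y) = prodW C x ++ prodW C y := by
  simp [prodW]

theorem prodW_pow (C : Set (List E)) (x : FreeMonoid C) (n : ℕ) :
    prodW C (x ^ n) = rep n (prodW C x) := by
  induction n with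
  | zero => rfl
  | succ n ih => rw [pow_succ', prodW_mul, ih, rep_succ]

theorem walk_flatten {v : V} : ∀ ps : List (List E), (∀ p ∈ ps, G.Walk v p v) →
    G.Walk v ps.flatten v
  | [], _ => rfl
  | p :: ps, h => by
    rw [List.flatten_cons, walk_append]
    exact ⟨v, h p (by simp), walk_flatten ps (fun q hq => h q (List.mem_cons_of_mem _ hq))⟩

theorem walk_prodW {v : V} {C : Set (List E)} (hC : ∀ l ∈ C, G.Walk v l v) (w : FreeMonoid C) :
    G.Walk v (prodW C w) v := by
  apply walk_flatten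
  intro p hp
  rw [List.mem_map] at hp
  obtain ⟨q, _, rfl⟩ := hp
  exact hC q.1 q.2

/-- The congruence on words over closed walks. -/
def con (G : TG α V E) (k : ℕ) (v : V) (C : Set (List E)) (hC : ∀ l ∈ C, G.Walk v l v) :
    Con (FreeMonoid C) where
  r x y := G.Sim k v v (prodW C x) (prodW C y)
  iseqv := ⟨fun _ => Sim.refl _, fun h => h.symm, fun h1 h2 => h1.trans h2⟩
  mul' := by
    intro w x y z h1 h2
    rw [prodW_mul, prodW_mul]
    exact Sim.append (walk_prodW hC w) (walk_prodW hC y) h1 h2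

theorem fin_products {k : ℕ} (hk : 1 ≤ k) (hB : BFin k) {v : V} {C : Set (List E)}
    (hfin : C.Finite) (hC : ∀ l ∈ C, G.Walk v l v) :
    ∃ R : Set (List E), R.Finite ∧ (∀ r ∈ R, G.Walk v r v) ∧
      ∀ ps : List (List E), (∀ p ∈ ps, p ∈ C) → ∃ r ∈ R, G.Sim k v v ps.flatten r := by
  have hfC : Finite C := hfin
  let c := con G k v C hC
  have hfg : Monoid.FG c.Quotient :=
    Monoid.fg_of_surjective c.mk' Con.mk'_surjective
  have hpow : ∀ q : c.Quotient, q ^ k = 1 := by
    intro q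
    induction q using Con.induction_on with
    | H x =>
      have : ((x ^ k : FreeMonoid C) : c.Quotient) = ((1 : FreeMonoid C) : c.Quotient) := by
        rw [Con.eq]
        show G.Sim k v v (prodW C (x ^ k)) (prodW C 1)
        rw [prodW_pow, prodW_one]
        exact sim_pow (walk_prodW hC x)
      have h2 : (x : c.Quotient) ^ k = ((x ^ k : FreeMonoid C) : c.Quotient) :=
        (map_pow c.mk' x k).symm
      rw [h2, this]
      rfl
  have hF : Finite c.Quotient := finite_of_monoid hk hB _ hfg hpow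
  refine ⟨Set.range (fun q : c.Quotient => prodW C (Quotient.out q)), Set.finite_range _, ?_, ?_⟩
  · rintro r ⟨q, rfl⟩
    exact walk_prodW hC _
  · intro ps hps
    let w : FreeMonoid C := FreeMonoid.ofList (ps.attach.map (fun p => ⟨p.1, hps p.1 p.2⟩))
    have hw : prodW C w = ps.flatten := by
      simp only [prodW, w, FreeMonoid.toList_ofList, List.map_map]
      congr 1
      exact List.attach_map_subtype_val ps
    refine ⟨_, ⟨(w : c.Quotient), rfl⟩, ?_⟩
    rw [← hw]
    have h1 : c.r w (Quotient.out (w : c.Quotient)) := by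
      have : ((Quotient.out (w : c.Quotient) : FreeMonoid C) : c.Quotient) = (w : c.Quotient) :=
        Quotient.out_eq _
      exact (Con.eq c).mp this.symm
    exact h1

/-- Walks with interior vertices in `U`. -/
def WU (G : TG α V E) (U : Set V) (a : V) (l : List E) (b : V) : Prop :=
  G.Walk a l b ∧ ∀ p q c, l = p ++ q → p ≠ [] → q ≠ [] → G.Walk a p c → c ∈ U

theorem first_visit {U : Set V} {v a b : V} {l : List E} (h : G.WU (insert v U) a l b) :
    G.WU U a l b ∨ ∃ l0 q, l = l0 ++ q ∧ l0 ≠ [] ∧ G.WU U a l0 v ∧ G.WU (insert v U) v q b := by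
  classical
  by_cases hU : G.WU U a l b
  · exact Or.inl hU
  right
  have hex : ∃ n, ∃ p q c, l = p ++ q ∧ p ≠ [] ∧ q ≠ [] ∧ G.Walk a p c ∧ c ∉ U ∧
      p.length = n := by
    by_contra hno
    refine hU ⟨h.1, ?_⟩
    intro p q c h1 h2 h3 h4
    by_contra hc
    exact hno ⟨p.length, p, q, c, h1, h2, h3, h4, hc, rfl⟩
  obtain ⟨p, q, c, h1, h2, h3, h4, h5, h6⟩ := Nat.find_spec hex
  have hmin := fun m (hm : m < Nat.find hex) => Nat.find_min hex hm
  have hcv : c = v := by
    rcases h.2 p q c h1 h2 h3 h4 with hc | hc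
    · exact hc
    · exact absurd hc h5
  subst hcv
  refine ⟨p, q, h1, h2, ⟨h4, ?_⟩, ?_, ?_⟩
  · intro p1 p2 c' e1 e2 e3 e4
    by_contra hc'
    refine hmin p1.length ?_ ⟨p1, p2 ++ q, c', ?_, e2, ?_, e4, hc', rfl⟩
    · rw [← h6, e1, List.length_append]
      have := List.length_pos_iff.mpr e3
      omega
    · rw [h1, e1, List.append_assoc]
    · simp [e3]
  · have := h.1
    rw [h1, walk_append] at this
    obtain ⟨c', w1, w2⟩ := this
    rwa [G.walk_unique h4 w1]
  · intro q1 q2 c' e1 e2 e3 e4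
    refine h.2 (p ++ q1) q2 c' ?_ ?_ e3 (G.walk_append.mpr ⟨c, h4, e4⟩)
    · rw [h1, e1, List.append_assoc]
    · simp [h2]

theorem star_decomp {U : Set V} {v b : V} : ∀ n (q : List E), q.length = n →
    G.WU (insert v U) v q b → ∃ (ps : List (List E)) (l1 : List E), q = ps.flatten ++ l1 ∧
      (∀ p ∈ ps, G.WU U v p v) ∧ G.WU U v l1 b := by
  intro n
  induction n using Nat.strong_induction_on with
  | _ n ih =>
    intro q hn hq
    rcases first_visit hq with h | ⟨l0, q', rfl, h0, h1, h2⟩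
    · exact ⟨[], q, by simp, by simp, h⟩
    · have hlen : q'.length < n := by
        rw [← hn, List.length_append]
        have := List.length_pos_iff.mpr h0
        omega
      obtain ⟨ps, l1, rfl, hps, hl1⟩ := ih _ hlen q' rfl h2
      refine ⟨l0 :: ps, l1, by simp, ?_, hl1⟩
      intro p hp
      rcases List.mem_cons.mp hp with rfl | hp
      · exact h1
      · exact hps p hp

/-- Finitely many classes of walks through `U`. -/
def FinC (G : TG α V E) (k : ℕ) (U : Set V) (a b : V) : Prop :=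
  ∃ R : Set (List E), R.Finite ∧ (∀ r ∈ R, G.Walk a r b) ∧
    ∀ l, G.WU U a l b → ∃ r ∈ R, G.Sim k a b l r

theorem finC_empty [Finite E] {k : ℕ} (a b : V) : G.FinC k ∅ a b := by
  refine ⟨{l | (l = [] ∨ ∃ e, l = [e]) ∧ G.Walk a l b}, ?_, fun r hr => hr.2, ?_⟩
  · refine Set.Finite.subset ((Set.finite_singleton ([] : List E)).union
      (Set.finite_range (fun e : E => [e]))) ?_
    rintro l ⟨h | ⟨e, he⟩, _⟩
    · exact Or.inl h
    · exact Or.inr ⟨e, he.symm⟩
  · intro l hl
    refine ⟨l, ⟨?_, hl.1⟩, Sim.refl _⟩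
    match l, hl with
    | [], _ => exact Or.inl rfl
    | [e], _ => exact Or.inr ⟨e, rfl⟩
    | e :: e' :: l', hl =>
      exfalso
      have := hl.2 [e] (e' :: l') (G.tgt e) rfl (by simp) (by simp) ⟨hl.1.1, rfl⟩
      exact this

theorem sim_flatten {k : ℕ} {U : Set V} {v : V} {R : Set (List E)}
    (hR : ∀ l, G.WU U v l v → ∃ r ∈ R, G.Sim k v v l r) :
    ∀ ps : List (List E), (∀ p ∈ ps, G.WU U v p v) →
      ∃ rs : List (List E), (∀ r ∈ rs, r ∈ R) ∧ G.Sim k v v ps.flatten rs.flatten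
  | [], _ => ⟨[], by simp, Sim.refl _⟩
  | p :: ps, h => by
    obtain ⟨rs, h1, h2⟩ := sim_flatten hR ps (fun q hq => h q (List.mem_cons_of_mem _ hq))
    obtain ⟨r, hr, hs⟩ := hR p (h p (by simp))
    refine ⟨r :: rs, ?_, ?_⟩
    · intro r' hr'
      rcases List.mem_cons.mp hr' with rfl | hr'
      · exact hr
      · exact h1 r' hr'
    · rw [List.flatten_cons, List.flatten_cons]
      exact Sim.append (h p (by simp)).1
        (walk_flatten ps (fun q hq => (h q (List.mem_cons_of_mem _ hq)).1)) hs h2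

theorem finC_insert {k : ℕ} (hk : 1 ≤ k) (hB : BFin k) {U : Set V} (v : V)
    (ih : ∀ a b, G.FinC k U a b) (a b : V) : G.FinC k (insert v U) a b := by
  obtain ⟨Rab, fab, wab, hab⟩ := ih a b
  obtain ⟨Rav, fav, wav, hav⟩ := ih a v
  obtain ⟨Rvb, fvb, wvb, hvb⟩ := ih v b
  obtain ⟨Rvv, fvv, wvv, hvv⟩ := ih v v
  obtain ⟨P, fP, wP, hP⟩ := fin_products hk hB fvv wvv
  refine ⟨Rab ∪ (fun x : List E × List E × List E => x.1 ++ (x.2.1 ++ x.2.2)) ''
    (Rav ×ˢ (P ×ˢ Rvb)), fab.union ((fav.prod (fP.prod fvb)).image _), ?_, ?_⟩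
  · rintro r (hr | ⟨⟨x, y, z⟩, ⟨hx, hy, hz⟩, rfl⟩)
    · exact wab r hr
    · exact G.walk_append.mpr ⟨v, wav x hx, G.walk_append.mpr ⟨v, wP y hy, wvb z hz⟩⟩
  · intro l hl
    rcases first_visit hl with h | ⟨l0, q, rfl, h0, h1, h2⟩
    · obtain ⟨r, hr, hs⟩ := hab l h
      exact ⟨r, Or.inl hr, hs⟩
    · obtain ⟨ps, l1, rfl, hps, hl1⟩ := star_decomp _ q rfl h2
      obtain ⟨rs, hrs, hs⟩ := sim_flatten hvv ps hps
      obtain ⟨y, hy, hsy⟩ := hP rs hrs
      obtain ⟨x, hx, hsx⟩ := hav l0 h1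
      obtain ⟨z, hz, hsz⟩ := hvb l1 hl1
      refine ⟨x ++ (y ++ z), Or.inr ⟨(x, y, z), ⟨hx, hy, hz⟩, rfl⟩, ?_⟩
      have wps : G.Walk v ps.flatten v := walk_flatten ps (fun p hp => (hps p hp).1)
      exact Sim.append h1.1 (G.walk_append.mpr ⟨v, wps, hl1.1⟩) hsx
        (Sim.append wps hl1.1 (hs.trans hsy) hsz)

theorem walk_end {a c : V} {p : List E} (hp : p ≠ []) (h : G.Walk a p c) :
    c ∈ Set.range G.tgt := by
  induction p generalizing a with
  | nil => exact absurd rfl hp
  | cons e p ih =>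
    rcases p with _ | ⟨e', p⟩
    · exact ⟨e, h.2⟩
    · exact ih (by simp) h.2

theorem fin_classes [Finite E] {k : ℕ} (hk : 1 ≤ k) (hB : BFin k) (a b : V) :
    ∃ R : Set (List E), R.Finite ∧ (∀ r ∈ R, G.Walk a r b) ∧
      ∀ l, G.Walk a l b → ∃ r ∈ R, G.Sim k a b l r := by
  have hmain : ∀ a b, G.FinC k (Set.range G.tgt) a b := by
    have hfin : (Set.range G.tgt).Finite := Set.finite_range _
    exact Set.Finite.induction_on (motive := fun U _ => ∀ a b, G.FinC k U a b) _ hfin
      finC_empty (fun _ _ ih => finC_insert hk hB _ ih)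
  obtain ⟨R, h1, h2, h3⟩ := hmain a b
  refine ⟨R, h1, h2, fun l hl => h3 l ⟨hl, ?_⟩⟩
  intro p q c _ hp _ hw
  exact walk_end hp hw

end TG

end

section

variable {α : Type} (g : ContextFreeGrammar α)

/-- Generation of terminal words from strings of symbols. -/
inductive Gen : List (Symbol α g.NT) → List α → Prop
  | nil : Gen [] []
  | term (a : α) {s : List (Symbol α g.NT)} {w : List α} : Gen s w →
      Gen (Symbol.terminal a :: s) (a :: w)
  | nt (r : ContextFreeRule α g.NT) (hr : r ∈ g.rules) {s : List (Symbol α g.NT)}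
      {w1 w2 : List α} : Gen r.output w1 → Gen s w2 →
      Gen (Symbol.nonterminal r.input :: s) (w1 ++ w2)

variable {g}

theorem Gen.append {s t : List (Symbol α g.NT)} {w1 w2 : List α} (h1 : Gen g s w1)
    (h2 : Gen g t w2) : Gen g (s ++ t) (w1 ++ w2) := by
  induction h1 with
  | nil => simpa using h2
  | term a h ih => exact Gen.term a ih
  | nt r hr h h' _ ih2 =>
    rw [List.append_assoc]
    exact Gen.nt r hr h ih2

theorem Gen.split {s t : List (Symbol α g.NT)} : ∀ {w : List α}, Gen g (s ++ t) w →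
    ∃ w1 w2, w = w1 ++ w2 ∧ Gen g s w1 ∧ Gen g t w2 := by
  induction s with
  | nil => intro w h; exact ⟨[], w, rfl, Gen.nil, h⟩
  | cons c s ih =>
    intro w h
    rw [List.cons_append] at h
    cases h with
    | term a h =>
      obtain ⟨w1, w2, rfl, h1, h2⟩ := ih h
      exact ⟨a :: w1, w2, rfl, Gen.term a h1, h2⟩
    | nt r hr h h' =>
      obtain ⟨w1, w2, rfl, h1, h2⟩ := ih h'
      exact ⟨_ ++ w1, w2, by simp, Gen.nt r hr h h1, h2⟩

theorem Gen.derives {s : List (Symbol α g.NT)} {w : List α} (h : Gen g s w) :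
    g.Derives s (w.map Symbol.terminal) := by
  induction h with
  | nil => exact Relation.ReflTransGen.refl
  | term a h ih =>
    exact ih.append_left [Symbol.terminal a]
  | @nt r hr s w1 w2 h1 h2 ih1 ih2 =>
    have a1 : g.Produces [Symbol.nonterminal r.input] r.output :=
      ⟨r, hr, ContextFreeRule.Rewrites.input_output⟩
    have a2 : g.Derives [Symbol.nonterminal r.input] (w1.map Symbol.terminal) :=
      a1.trans_derives ih1
    have a3 := a2.append_right s
    have a4 := ih2.append_left (w1.map Symbol.terminal)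
    rw [List.map_append]
    exact a3.trans a4

theorem gen_map (w : List α) : Gen g (w.map Symbol.terminal) w := by
  induction w with
  | nil => exact Gen.nil
  | cons a w ih => exact Gen.term a ih

theorem gen_of_derives {s t : List (Symbol α g.NT)} {w : List α} (h : g.Derives s t)
    (ht : Gen g t w) : Gen g s w := by
  induction h using Relation.ReflTransGen.head_induction_on with
  | refl => exact ht
  | head hp _ ih =>
    obtain ⟨r, hr, hrw⟩ := hp
    obtain ⟨p, q, rfl, rfl⟩ := hrw.exists_parts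
    obtain ⟨w', w3, rfl, h', h3⟩ := Gen.split ih
    obtain ⟨w1, w2, rfl, h1, h2⟩ := Gen.split h'
    have : Gen g [Symbol.nonterminal r.input] (w2 ++ []) := Gen.nt r hr h2 Gen.nil
    rw [List.append_nil] at this
    exact (h1.append this).append h3

/-- Words generated by a nonterminal. -/
def GenN (A : g.NT) (w : List α) : Prop := ∃ o, (⟨A, o⟩ : ContextFreeRule α g.NT) ∈ g.rules ∧
  Gen g o w

theorem GenN.gen {A : g.NT} {w : List α} (h : GenN A w) {s : List (Symbol α g.NT)} {w2 : List α}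
    (hs : Gen g s w2) : Gen g (Symbol.nonterminal A :: s) (w ++ w2) := by
  obtain ⟨o, ho, hg⟩ := h
  exact Gen.nt ⟨A, o⟩ ho hg hs

theorem mem_language_iff_genN (w : List α) : w ∈ g.language ↔ GenN g.initial w := by
  rw [ContextFreeGrammar.mem_language_iff]
  constructor
  · intro h
    have h1 := gen_of_derives h (gen_map w)
    generalize hs : [Symbol.nonterminal g.initial] = s at h1
    cases h1 with
    | nil => simp at hs
    | term a h => simp at hs
    | nt r hr hA h' =>
      simp only [List.cons.injEq, Symbol.nonterminal.injEq] at hs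
      obtain ⟨h1, rfl⟩ := hs
      cases h'
      rw [List.append_nil]
      exact ⟨r.output, by rw [h1]; exact hr, hA⟩
  · intro h
    have := h.gen Gen.nil
    rw [List.append_nil] at this
    exact this.derives

variable (g)

/-- Edges: occurrences of nonterminals on right-hand sides, with productive siblings. -/
abbrev EdgeT : Type := {e : g.NT × List (Symbol α g.NT) × g.NT × List (Symbol α g.NT) //
  (⟨e.1, e.2.1 ++ Symbol.nonterminal e.2.2.1 :: e.2.2.2⟩ : ContextFreeRule α g.NT) ∈ g.rules ∧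
    (∃ u, Gen g e.2.1 u) ∧ ∃ v, Gen g e.2.2.2 v}

/-- Ends: factorizations of right-hand sides. -/
abbrev EndT : Type := {e : g.NT × List (Symbol α g.NT) × List (Symbol α g.NT) //
  (⟨e.1, e.2.1 ++ e.2.2⟩ : ContextFreeRule α g.NT) ∈ g.rules}

theorem len_le (r : ContextFreeRule α g.NT) (hr : r ∈ g.rules) :
    r.output.length ≤ g.rules.sup (fun r => r.output.length) :=
  Finset.le_sup (f := fun r : ContextFreeRule α g.NT => r.output.length) hr

instance : Finite (EdgeT g) := by
  have hf : ∀ e : EdgeT g, e.1.2.1.length < g.rules.sup (fun r => r.output.length) + 1 := by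
    intro e
    have := len_le g _ e.2.1
    simp only [List.length_append, List.length_cons] at this
    omega
  refine Finite.of_injective (β := {r // r ∈ g.rules} ×
    Fin (g.rules.sup (fun r => r.output.length) + 1))
    (fun e => (⟨_, e.2.1⟩, ⟨e.1.2.1.length, hf e⟩)) ?_
  rintro ⟨⟨A, p, B, q⟩, h⟩ ⟨⟨A', p', B', q'⟩, h'⟩ he
  simp only [Prod.mk.injEq, Subtype.mk.injEq, ContextFreeRule.mk.injEq, Fin.mk.injEq] at he
  obtain ⟨⟨rfl, h1⟩, h2⟩ := he
  obtain ⟨rfl, h3⟩ := List.append_inj h1 h2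
  simp only [List.cons.injEq, Symbol.nonterminal.injEq] at h3
  obtain ⟨rfl, rfl⟩ := h3
  rfl

instance : Finite (EndT g) := by
  have hf : ∀ e : EndT g, e.1.2.1.length < g.rules.sup (fun r => r.output.length) + 1 := by
    intro e
    have := len_le g _ e.2
    simp only [List.length_append] at this
    omega
  refine Finite.of_injective (β := {r // r ∈ g.rules} ×
    Fin (g.rules.sup (fun r => r.output.length) + 1))
    (fun e => (⟨_, e.2⟩, ⟨e.1.2.1.length, hf e⟩)) ?_
  rintro ⟨⟨A, p, q⟩, h⟩ ⟨⟨A', p', q'⟩, h'⟩ he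
  simp only [Prod.mk.injEq, Subtype.mk.injEq, ContextFreeRule.mk.injEq, Fin.mk.injEq] at he
  obtain ⟨⟨rfl, h1⟩, h2⟩ := he
  obtain ⟨rfl, rfl⟩ := List.append_inj h1 h2
  rfl

/-- The two-sided graph of a grammar. -/
def tg : TG α g.NT (EdgeT g) where
  src e := e.1.1
  tgt e := e.1.2.2.1
  L e u := Gen g e.1.2.1 u
  R e v := Gen g e.1.2.2.2 v
  neL e := e.2.2.1
  neR e := e.2.2.2

variable {g}

/-- Spine decompositions. -/
def Spine (A : g.NT) (x z : List α) : Prop :=
  ∃ (l : List (EdgeT g)) (t : EndT g) (x1 x2 z2 z1 : List α), (tg g).Walk A l t.1.1 ∧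
    x = x1 ++ x2 ∧ z = z2 ++ z1 ∧ (tg g).LP l x1 ∧ Gen g t.1.2.1 x2 ∧ Gen g t.1.2.2 z2 ∧
    (tg g).RP l z1

theorem spine_gen {s : List (Symbol α g.NT)} {w : List α} (h : Gen g s w) :
    ∀ x z, w = x ++ z → (∃ s1 s2, s = s1 ++ s2 ∧ Gen g s1 x ∧ Gen g s2 z) ∨
      (∃ s1 A s2 x1 x2 z2 z1, s = s1 ++ Symbol.nonterminal A :: s2 ∧ Gen g s1 x1 ∧ Gen g s2 z1 ∧
        x = x1 ++ x2 ∧ z = z2 ++ z1 ∧ Spine A x2 z2) := by
  induction h with
  | nil =>
    intro x z he
    obtain ⟨rfl, rfl⟩ := List.append_eq_nil_iff.mp he.symm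
    exact Or.inl ⟨[], [], rfl, Gen.nil, Gen.nil⟩
  | @term a s w h ih =>
    intro x z he
    rcases x with _ | ⟨b, x⟩
    · simp only [List.nil_append] at he
      subst he
      exact Or.inl ⟨[], _, rfl, Gen.nil, Gen.term a h⟩
    · simp only [List.cons_append, List.cons.injEq] at he
      obtain ⟨rfl, he⟩ := he
      rcases ih x z he with ⟨s1, s2, rfl, h1, h2⟩ | ⟨s1, A, s2, x1, x2, z2, z1, rfl, h1, h2, rfl, rfl, hs⟩
      · exact Or.inl ⟨_ :: s1, s2, rfl, Gen.term a h1, h2⟩
      · exact Or.inr ⟨_ :: s1, A, s2, a :: x1, x2, z2, z1, rfl, Gen.term a h1, h2, rfl, rfl, hs⟩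
  | @nt r hr s w1 w2 h1 h2 ih1 ih2 =>
    intro x z he
    rcases List.append_eq_append_iff.mp he with ⟨x', rfl, he'⟩ | ⟨z', he', rfl⟩
    · -- x = w1 ++ x'
      have hN : Gen g [Symbol.nonterminal r.input] w1 := by
        have := Gen.nt r hr h1 Gen.nil
        rwa [List.append_nil] at this
      rcases ih2 x' z he' with ⟨s1, s2, rfl, h3, h4⟩ |
        ⟨s1, A, s2, x1, x2, z2, z1, rfl, h3, h4, rfl, rfl, hs⟩
      · exact Or.inl ⟨[Symbol.nonterminal r.input] ++ s1, s2, rfl, hN.append h3, h4⟩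
      · exact Or.inr ⟨[Symbol.nonterminal r.input] ++ s1, A, s2, w1 ++ x1, x2, z2, z1, rfl,
          hN.append h3, h4, by simp, rfl, hs⟩
    · -- w1 = x ++ z'
      refine Or.inr ⟨[], r.input, s, [], x, z', w2, rfl, Gen.nil, h2, rfl, rfl, ?_⟩
      rcases ih1 x z' he' with ⟨s1, s2, ho, h3, h4⟩ |
        ⟨s1, A, s2, x1, x2, z2, z1, ho, h3, h4, rfl, rfl, hs⟩
      · refine ⟨[], ⟨(r.input, s1, s2), ?_⟩, [], x, z', [], rfl, rfl, by simp, rfl, h3, h4, rfl⟩
        show (⟨r.input, s1 ++ s2⟩ : ContextFreeRule α g.NT) ∈ g.rules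
        rw [← ho]; exact hr
      · obtain ⟨l, t, y1, y2, v2, v1, hw, rfl, rfl, hL, hx, hz, hR⟩ := hs
        have hmem : (⟨r.input, s1 ++ Symbol.nonterminal A :: s2⟩ : ContextFreeRule α g.NT) ∈
            g.rules := by rw [← ho]; exact hr
        refine ⟨⟨(r.input, s1, A, s2), hmem, ⟨_, h3⟩, ⟨_, h4⟩⟩ :: l, t, x1 ++ y1, y2, v2,
          v1 ++ z1, ⟨rfl, hw⟩, by simp, by simp, ⟨x1, y1, rfl, h3, hL⟩, hx, hz,
          ⟨v1, z1, rfl, h4, hR⟩⟩

theorem spine_of_genN {A : g.NT} {x z : List α} (h : GenN A (x ++ z)) : Spine A x z := by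
  obtain ⟨o, ho, hg⟩ := h
  rcases spine_gen hg x z rfl with ⟨s1, s2, rfl, h3, h4⟩ |
    ⟨s1, B, s2, x1, x2, z2, z1, rfl, h3, h4, rfl, rfl, hs⟩
  · exact ⟨[], ⟨(A, s1, s2), ho⟩, [], x, z, [], rfl, rfl, by simp, rfl, h3, h4, rfl⟩
  · obtain ⟨l, t, y1, y2, v2, v1, hw, rfl, rfl, hL, hx, hz, hR⟩ := hs
    exact ⟨⟨(A, s1, B, s2), ho, ⟨_, h3⟩, ⟨_, h4⟩⟩ :: l, t, x1 ++ y1, y2, v2,
      v1 ++ z1, ⟨rfl, hw⟩, by simp, by simp, ⟨x1, y1, rfl, h3, hL⟩, hx, hz,
      ⟨v1, z1, rfl, h4, hR⟩⟩

theorem genN_of_walk {A B : g.NT} {l : List (EdgeT g)} {x w z : List α}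
    (hw : (tg g).Walk A l B) (hx : (tg g).LP l x) (hz : (tg g).RP l z) (hB : GenN B w) :
    GenN A (x ++ w ++ z) := by
  induction l generalizing A x z with
  | nil =>
    rw [TG.walk_nil] at hw
    subst hw
    have h1 : x = [] := hx
    have h2 : z = [] := hz
    subst h1 h2
    simpa using hB
  | cons e l ih =>
    obtain ⟨hs, hw'⟩ := hw
    obtain ⟨u, x', rfl, hu, hx'⟩ := hx
    obtain ⟨z', v, rfl, hv, hz'⟩ := hz
    subst hs
    have := ih hw' hx' hz'
    refine ⟨_, e.2.1, ?_⟩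
    have h1 : Gen g _ _ := Gen.append hu (this.gen hv)
    have e1 : u ++ x' ++ w ++ (z' ++ v) = u ++ (x' ++ w ++ z' ++ v) := by simp
    rw [e1]
    exact h1

/-- Main theorem, grammar form. -/
theorem finite_quotients {k : ℕ} (hk : 1 ≤ k) (hB : BFin k)
    (hP : PK k (fun w => w ∈ g.language)) : (Set.range g.language.leftQuotient).Finite := by
  classical
  have hcl := fun t : EndT g => TG.fin_classes (G := tg g) hk hB g.initial t.1.1
  choose R hRf hRw hR using hcl
  have hΩ : {p : EndT g × List (EdgeT g) | p.2 ∈ R p.1}.Finite := by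
    have : {p : EndT g × List (EdgeT g) | p.2 ∈ R p.1} ⊆
        Set.univ ×ˢ (⋃ t : EndT g, R t) := by
      rintro ⟨t, r⟩ hr
      exact ⟨Set.mem_univ _, Set.mem_iUnion.mpr ⟨t, hr⟩⟩
    exact (Set.finite_univ.prod (Set.finite_iUnion hRf)).subset this
  let C : List α → Set (EndT g × List (EdgeT g)) := fun x => {p | p.2 ∈ R p.1 ∧
    ∃ l x1 x2, (tg g).Walk g.initial l p.1.1.1 ∧ (tg g).Sim k g.initial p.1.1.1 l p.2 ∧
      x = x1 ++ x2 ∧ (tg g).LP l x1 ∧ Gen g p.1.1.2.1 x2}
  let F : Set (EndT g × List (EdgeT g)) → Language α := fun D => {z | ∃ p ∈ D,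
    ∃ l z2 z1, (tg g).Walk g.initial l p.1.1.1 ∧ (tg g).Sim k g.initial p.1.1.1 l p.2 ∧
      z = z2 ++ z1 ∧ Gen g p.1.1.2.2 z2 ∧ (tg g).RP l z1}
  have key : ∀ x, g.language.leftQuotient x = F (C x) := by
    intro x
    ext z
    rw [Language.mem_leftQuotient]
    constructor
    · intro hxz
      obtain ⟨l, t, x1, x2, z2, z1, hw, rfl, rfl, hL, hx, hz, hRR⟩ :=
        spine_of_genN ((mem_language_iff_genN _).mp hxz)
      obtain ⟨r, hr, hs⟩ := hR t l hw
      exact ⟨(t, r), ⟨hr, l, x1, x2, hw, hs, rfl, hL, hx⟩, l, z2, z1, hw, hs, rfl, hz, hRR⟩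
    · rintro ⟨⟨t, r⟩, ⟨hr, l, x1, x2, hw, hs, rfl, hL, hx⟩, l', z2, z1, hw', hs', rfl, hz, hRR⟩
      have hsim : (tg g).Sim k g.initial t.1.1 l l' := hs.trans hs'.symm
      have hrel := TG.rel_of_sim (G := tg g) (M := fun m => ∃ m1 m2, m = m1 ++ m2 ∧
        Gen g t.1.2.1 m1 ∧ Gen g t.1.2.2 m2) hP (s := g.initial) (t := t.1.1) ?_ hw hsim
      · have := hrel x1 (x2 ++ z2) z1 hL ⟨x2, z2, rfl, hx, hz⟩ hRR
        simpa [List.append_assoc] using this
      · intro l0 hl0 y m v hy hm hv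
        obtain ⟨m1, m2, rfl, hm1, hm2⟩ := hm
        exact (mem_language_iff_genN _).mpr
          (genN_of_walk hl0 hy hv ⟨_, t.2, hm1.append hm2⟩)
  have hsub : Set.range g.language.leftQuotient ⊆ F '' {D | D ⊆
      {p : EndT g × List (EdgeT g) | p.2 ∈ R p.1}} := by
    rintro _ ⟨x, rfl⟩
    exact ⟨C x, fun p hp => hp.1, (key x).symm⟩
  exact (hΩ.finite_subsets.image F).subset hsub

/-- Main theorem. -/
theorem regular_of_PK {k : ℕ} (hk : 1 ≤ k) (hB : BFin k) (L : Language α) (hL : L.IsContextFree)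
    (hP : PK k (fun w => w ∈ L)) : L.IsRegular := by
  obtain ⟨g, rfl⟩ := hL
  exact Language.IsRegular.of_finite_range_leftQuotient (finite_quotients hk hB hP)

end

/-- Condition `P_k`: for every iterative pair `(x,u,y,v,z)` of a word of `L`, i.e. `uv ≠ ε` and
`x u^n y v^n z ∈ L` for all `n ≥ 1`, one has `x u^(ki) y v^(kj) z ∈ L` for all `i, j ≥ 0`. -/
def CondP {α : Type} (k : ℕ) (L : Language α) : Prop :=
  ∀ x u y v z : List α, u ++ v ≠ [] →
    (∀ n : ℕ, 1 ≤ n →
      x ++ (List.replicate n u).flatten ++ y ++ (List.replicate n v).flatten ++ z ∈ L) →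
    ∀ i j : ℕ,
      x ++ (List.replicate (k * i) u).flatten ++ y ++
        (List.replicate (k * j) v).flatten ++ z ∈ L

/-- Every context-free language satisfying `P_k` is regular. -/
def Settled (k : ℕ) : Prop :=
  ∀ (α : Type) (L : Language α), L.IsContextFree → CondP k L → L.IsRegular

/-- Every finitely generated group of exponent dividing `k` is finite. -/
def BurnsideFinite (k : ℕ) : Prop :=
  ∀ (G : Type) [Group G], Group.FG G → (∀ g : G, g ^ k = 1) → Finite G

theorem settled_of_burnside {k : ℕ} (hk : 1 ≤ k) (hB : BurnsideFinite k) : Settled k :=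
  fun _ L hL hP => regular_of_PK hk hB L hL hP

theorem prod_flatten_replicate {G X : Type} [Group G] (f : X → G) (n : ℕ) (u : List X) :
    ((List.replicate n u).flatten.map f).prod = ((u.map f).prod) ^ n := by
  induction n with
  | zero => simp
  | succ n ih =>
    rw [List.replicate_succ, List.flatten_cons, List.map_append, List.prod_append, ih, pow_succ']

theorem finite_of_settled {k : ℕ} (hk : 1 ≤ k) (hS : Settled k) (G X : Type) [Group G]
    (f : X → G) (hf : ∀ g : G, ∃ w : List X, (w.map f).prod = g) (hexp : ∀ g : G, g ^ k = 1)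
    (hcf : Language.IsContextFree ({w : List X | (w.map f).prod ≠ 1} : Language X)) :
    Finite G := by
  set K : Language X := {w : List X | (w.map f).prod ≠ 1} with hK
  have mem : ∀ w : List X, w ∈ K ↔ (w.map f).prod ≠ 1 := fun w => Iff.rfl
  have hP : CondP k K := by
    intro x u y v z _ hn i j
    have h := hn k hk
    rw [mem] at h ⊢
    simp only [List.map_append, List.prod_append, prod_flatten_replicate] at h ⊢
    rw [hexp, hexp] at h
    rw [pow_mul, pow_mul, hexp, hexp, one_pow, one_pow]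
    exact h
  have hreg := hS X K hcf hP
  have hfin := hreg.finite_range_leftQuotient
  choose w hw using hf
  have hinj : Function.Injective (fun g : G => K.leftQuotient (w g)) := by
    intro g h hgh
    by_contra hne
    have h1 : w g⁻¹ ∉ K.leftQuotient (w g) := by
      rw [Language.mem_leftQuotient, mem]
      simp [hw]
    have h2 : w g⁻¹ ∈ K.leftQuotient (w h) := by
      rw [Language.mem_leftQuotient, mem]
      simp only [List.map_append, List.prod_append, hw]
      intro he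
      exact hne (mul_inv_eq_one.mp he).symm
    have hgh' : K.leftQuotient (w g) = K.leftQuotient (w h) := hgh
    rw [← hgh'] at h2
    exact h1 h2
  have hF : Finite (Set.range K.leftQuotient) := hfin
  exact Finite.of_injective
    (fun g : G => (⟨K.leftQuotient (w g), ⟨_, rfl⟩⟩ : Set.range K.leftQuotient))
    (fun g h hgh => hinj (congrArg Subtype.val hgh))

theorem result :
    (∀ k : ℕ, 1 ≤ k → k ≤ 4 → Settled k) ∧
    (∀ k : ℕ, 1 ≤ k → BurnsideFinite k → Settled k) ∧
    (∀ k : ℕ, 1 ≤ k → Settled k → ∀ (G X : Type) [Group G] (f : X → G),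
      (∀ g : G, ∃ w : List X, (w.map f).prod = g) → (∀ g : G, g ^ k = 1) →
      Language.IsContextFree ({w : List X | (w.map f).prod ≠ 1} : Language X) → Finite G) :=
  ⟨fun _ h1 h4 => settled_of_burnside h1 (bfin_small h1 h4),
    fun _ h1 hB => settled_of_burnside h1 hB,
    fun _ h1 hS G X _ f hf hexp hcf => finite_of_settled h1 hS G X f hf hexp hcf⟩

end Pool.Agent.Results.MP_5ca50a_lc.SmallExponents
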